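import Mathlib

set_option autoImplicit false

/-!
# Zeros of a gcd recursion and prime values of polynomials: products with an integer root

For every product `P` of irreducible polynomials which are simultaneously prime infinitely often and
one of which is `x - c` with an integer `c ≥ 2`, no starting value `s` is good: the sequence vanishes
at `n = c` whatever `s` is, and there the factor `x - c` has the value `1` at `n + 1`. The
polynomials `x - c` satisfy the hypotheses, so that the answer to the question, as posed, is no.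
-/

namespace Pool.Agent.Results.MP_e68b86_nt.RootShift

open Polynomial

/-- The sequence `S_s` for `P`: `S 1 = s` and `S n = |S (n - 1) - gcd (S (n - 1), P n)|` for
`n ≥ 2` (the value at `0` is not used). -/
def S (P : ℤ[X]) (s : ℕ) : ℕ → ℕ
  | 0 => s
  | 1 => s
  | n + 2 => ((S P s (n + 1) : ℤ) -
      (Int.gcd (S P s (n + 1) : ℤ) (P.eval ((n + 2 : ℕ) : ℤ)) : ℤ)).natAbs

/-- All the values `Q_j(k)` are (positive) primes. -/
def AllPrime {m : ℕ} (Q : Fin m → ℤ[X]) (k : ℕ) : Prop :=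
  ∀ j, ∃ p : ℕ, p.Prime ∧ (Q j).eval (k : ℤ) = p

/-- The hypotheses of the question: `m ≥ 1` nonconstant irreducible polynomials over `ℤ`, all prime
at infinitely many positive integers. -/
structure Admissible {m : ℕ} (Q : Fin m → ℤ[X]) : Prop where
  pos : 1 ≤ m
  irr : ∀ j, Irreducible (Q j)
  nonconst : ∀ j, 0 < (Q j).natDegree
  inf : {k : ℕ | 0 < k ∧ AllPrime Q k}.Infinite

/-- `s` is good for `P = ∏ Q_j`: infinitely many zeros, and all the `Q_j(n + 1)` are prime for every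
zero `n ≥ 2`. -/
def Good {m : ℕ} (Q : Fin m → ℤ[X]) (s : ℕ) : Prop :=
  {n : ℕ | 1 ≤ n ∧ S (∏ j, Q j) s n = 0}.Infinite ∧
    ∀ n : ℕ, 2 ≤ n → S (∏ j, Q j) s n = 0 → AllPrime Q (n + 1)

lemma S_root (P : ℤ[X]) (s n : ℕ) (h : P.eval ((n + 2 : ℕ) : ℤ) = 0) : S P s (n + 2) = 0 := by
  rw [S, h, Int.gcd_zero_right, Int.natAbs_natCast, sub_self, Int.natAbs_zero]

lemma not_good {m : ℕ} (Q : Fin m → ℤ[X]) (j : Fin m) (c : ℤ) (hc : 2 ≤ c) (hQ : Q j = X - C c)
    (s : ℕ) : ¬ Good Q s := by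
  rintro ⟨-, h⟩
  obtain ⟨k, rfl⟩ : ∃ k : ℕ, c = ((k + 2 : ℕ) : ℤ) := ⟨(c - 2).toNat, by
    push_cast
    rw [Int.toNat_of_nonneg (by omega)]
    ring⟩
  have h0 : (∏ i, Q i).eval ((k + 2 : ℕ) : ℤ) = 0 := by
    rw [eval_prod]
    refine Finset.prod_eq_zero (Finset.mem_univ j) ?_
    rw [hQ, eval_sub, eval_X, eval_C, sub_self]
  obtain ⟨p, hp, h1⟩ := h (k + 2) (by omega) (S_root _ s k h0) j
  rw [hQ, eval_sub, eval_X, eval_C] at h1
  have h2 : (p : ℤ) = 1 := by
    rw [← h1]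
    push_cast
    ring
  have h3 : p = 1 := by exact_mod_cast h2
  exact hp.one_lt.ne' h3

lemma admissible (c : ℤ) (hc : 2 ≤ c) : Admissible (fun _ : Fin 1 => (X - C c : ℤ[X])) := by
  refine ⟨le_rfl, fun _ => (monic_X_sub_C c).irreducible_of_degree_eq_one (degree_X_sub_C c),
    fun _ => by rw [natDegree_X_sub_C]; exact one_pos, ?_⟩
  have hinj : Set.InjOn (fun p : ℕ => p + c.toNat) {p : ℕ | p.Prime} :=
    fun a _ b _ h => Nat.add_right_cancel h
  refine (Nat.infinite_setOfPred_prime.image hinj).mono ?_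
  rintro _ ⟨p, hp, rfl⟩
  refine ⟨Nat.add_pos_left (hp : p.Prime).pos _, fun _ => ⟨p, hp, ?_⟩⟩
  rw [eval_sub, eval_X, eval_C]
  push_cast
  rw [Int.toNat_of_nonneg (by omega)]
  ring

/-- If one of the `Q_j` is `x - c`, `c ≥ 2`, then no `s` is good for `P`; for every `c ≥ 2` the
polynomial `x - c` alone satisfies the hypotheses; so it is not true that for every `P` as in the
question infinitely many `s` are good. -/
theorem result :
    (∀ (m : ℕ) (Q : Fin m → ℤ[X]), Admissible Q → (∃ (j : Fin m) (c : ℤ), 2 ≤ c ∧ Q j = X - C c) →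
      ∀ s : ℕ, 0 < s → ¬ Good Q s) ∧
    (∀ c : ℤ, 2 ≤ c → Admissible (fun _ : Fin 1 => (X - C c : ℤ[X]))) ∧
    ¬ (∀ (m : ℕ) (Q : Fin m → ℤ[X]), Admissible Q → {s : ℕ | 0 < s ∧ Good Q s}.Infinite) := by
  refine ⟨fun m Q _ ⟨j, c, hc, hQ⟩ s _ => not_good Q j c hc hQ s, admissible, fun h => ?_⟩
  obtain ⟨s, -, hs⟩ := (h 1 _ (admissible 2 le_rfl)).nonempty
  exact not_good _ 0 2 le_rfl rfl s hs

end Pool.Agent.Results.MP_e68b86_nt.RootShift
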